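import Mathlib
import Pool.Agent.Lib.helper14.QH

namespace Pool.Agent.Results.MP_c4712b_ag.Counter

open MvPolynomial

theorem result : ∃ p : MvPolynomial (Fin 3) ℂ, Irreducible p ∧
    ContractibleSpace {x : Fin 3 → ℂ // eval x p = 0} ∧
    (∃ S : Set (Fin 3 → ℂ), (∀ a, a ∈ S ↔ eval a p = 0 ∧ ∀ f : MvPolynomial (Fin 3) ℂ,
        (∀ x, eval x p = 0 → eval x f = 0) → ∀ i, eval a (pderiv i f) = 0) ∧
      S.Nonempty ∧ S.Finite ∧ ∀ a ∈ S, ∀ᶠ b in nhds a, b ∈ S → b = a) ∧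
    ∀ φ : MvPolynomial (Fin 3) ℂ ≃ₐ[ℂ] MvPolynomial (Fin 3) ℂ,
      ¬ ∃ (w : Fin 3 → ℕ) (d : ℤ), (∀ i, 0 < w i) ∧ ∀ t : ℂ, t ≠ 0 → ∀ x : Fin 3 → ℂ,
        eval (fun i => t ^ w i * x i) (φ p) = t ^ d * eval x (φ p) :=
  Pool.Agent.Lib.helper14.QH.main

end Pool.Agent.Results.MP_c4712b_ag.Counter
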